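import Mathlib
import Pool.Agent.Q163.RX.Nec

set_option autoImplicit false

/-!
# Elliott's conjecture with a random factor supported on a set of primes: the exact condition

Let `P` be a set of primes and let `mass P ll N` be the sum of `1/p` over the primes `p ∈ P` with
`⌊log log N⌋ < p ≤ N`. Let `x` be the random completely multiplicative function with independent
fair signs at the primes of `P` and the value `1` at the other primes. The following are equivalent:

* `mass P ll N → ∞`;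
* for all functions `g_1, …, g_k` with values in the unit disc, almost surely the averages of
  `g_1(a_1 n + b_1) ⋯ g_k(a_k n + b_k)` times the product of `x(a_i n + b_i)` over `i ∈ S` tend to
  zero for all nonempty sets `S` of positions and all forms which are not proportional;
* for every function `g` with values `-1, 0, 1`, almost surely the mean value of `g x` is `0`.

If they fail, there is one function `g` with values `-1, 0, 1` such that for EVERY choice of the signs
the mean values of `g x` do not tend to zero.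
-/

namespace Pool.Agent.Results.MP_0c9a68_nt.ExactRandomFactor

open Finset Filter Topology MeasureTheory ProbabilityTheory Pool.Agent.Q163.RP Pool.Agent.Q163.RX

open Classical in
/-- the random function: completely multiplicative with the value `1` or `-1` at the primes `p ∈ P`,
according to `ω p`, and the value `1` at the other primes -/
noncomputable def rand (P : Set ℕ) (ω : ℕ → Bool) (n : ℕ) : ℝ :=
  ∏ p ∈ n.primeFactors, (if p ∈ P then (if ω p = true then 1 else -1) else 1) ^ n.factorization p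

lemma rand_eq (P : Set ℕ) (ω : ℕ → Bool) (n : ℕ) : rand P ω n = mult (sg P es ω) n := rfl

/-- complex weights -/
theorem cthr (P : Set ℕ) (hP : Tendsto (Pool.Agent.Q163.RX.mass P ll) atTop atTop) (k : ℕ)
    (hk : 1 ≤ k) (a b : Fin k → ℕ) (ha : ∀ i, 1 ≤ a i) (hab : ∀ i j, i ≠ j → a i * b j ≠ a j * b i)
    (w : ℕ → ℂ) (hw : ∀ n, ‖w n‖ ≤ 1) :
    ∀ᵐ ω ∂cm, Tendsto (fun N : ℕ => (∑ n ∈ Icc 1 N, w n *
      ∏ i, ((rand P ω (a i * n + b i) : ℝ) : ℂ)) / N) atTop (𝓝 0) := by
  have hre := thr P hP k hk a b ha hab (fun n => (w n).re)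
    (fun n => (Complex.abs_re_le_norm _).trans (hw n))
  have him := thr P hP k hk a b ha hab (fun n => (w n).im)
    (fun n => (Complex.abs_im_le_norm _).trans (hw n))
  filter_upwards [hre, him] with ω h2 h3
  have h4 := ((Complex.continuous_ofReal.tendsto 0).comp h2).add
    (((Complex.continuous_ofReal.tendsto 0).comp h3).mul_const Complex.I)
  rw [Complex.ofReal_zero, zero_mul, add_zero] at h4
  refine h4.congr fun N => ?_
  simp only [Function.comp]
  push_cast
  rw [div_mul_eq_mul_div, ← add_div, Finset.sum_mul, ← Finset.sum_add_distrib]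
  congr 1
  refine Finset.sum_congr rfl fun n _ => ?_
  have h5 : ((∏ i, mult (sg P es ω) (a i * n + b i) : ℝ) : ℂ) =
      ∏ i, ((rand P ω (a i * n + b i) : ℝ) : ℂ) := by
    push_cast
    rfl
  rw [← h5]
  have h6 := Complex.re_add_im (w n)
  push_cast
  linear_combination (∏ i, (mult (sg P es ω) (a i * n + b i) : ℂ)) * h6

/-- all positions of the random factor, all forms -/
theorem general (P : Set ℕ) (hP : Tendsto (Pool.Agent.Q163.RX.mass P ll) atTop atTop) (k : ℕ)
    (g : Fin k → ℕ → ℂ) (hg : ∀ i n, ‖g i n‖ ≤ 1) :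
    ∀ᵐ ω ∂cm, ∀ (S : Finset (Fin k)) (a b : Fin k → ℕ), S.Nonempty → (∀ i, 1 ≤ a i) →
      (∀ i j, i ≠ j → a i * b j ≠ a j * b i) →
      Tendsto (fun N : ℕ => (∑ n ∈ Icc 1 N, (∏ i, g i (a i * n + b i)) *
        ∏ i ∈ S, ((rand P ω (a i * n + b i) : ℝ) : ℂ)) / N) atTop (𝓝 0) := by
  rw [ae_all_iff]
  intro S
  rw [ae_all_iff]
  intro a
  rw [ae_all_iff]
  intro b
  by_cases hS : S.Nonempty
  swap
  · exact Eventually.of_forall fun ω h => absurd h hS
  by_cases ha : ∀ i, 1 ≤ a i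
  swap
  · exact Eventually.of_forall fun ω _ h => absurd h ha
  by_cases hab : ∀ i j, i ≠ j → a i * b j ≠ a j * b i
  swap
  · exact Eventually.of_forall fun ω _ _ h => absurd h hab
  have hw : ∀ n, ‖∏ i, g i (a i * n + b i)‖ ≤ 1 := by
    intro n
    rw [norm_prod]
    exact Finset.prod_le_one (fun i _ => norm_nonneg _) fun i _ => hg _ _
  have h1 := cthr P hP S.card hS.card_pos (fun j => a (S.orderEmbOfFin rfl j))
    (fun j => b (S.orderEmbOfFin rfl j)) (fun j => ha _)
    (fun i j hij => hab _ _ fun h => hij ((S.orderEmbOfFin rfl).injective h))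
    (fun n => ∏ i, g i (a i * n + b i)) hw
  filter_upwards [h1] with ω h2 _ _ _
  refine h2.congr fun N => ?_
  congr 1
  refine Finset.sum_congr rfl fun n _ => ?_
  congr 1
  have h3 : ∀ f : Fin k → ℂ, ∏ j, f (S.orderEmbOfFin rfl j) = ∏ i ∈ S, f i := by
    intro f
    have h4 : Finset.univ.image (S.orderEmbOfFin (rfl : S.card = S.card)) = S :=
      S.image_orderEmbOfFin_univ rfl
    conv_rhs => rw [← h4]
    rw [Finset.prod_image]
    intro x _ y _ h
    exact (S.orderEmbOfFin rfl).injective h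
  exact h3 fun i => ((rand P ω (a i * n + b i) : ℝ) : ℂ)

/-- mean value zero, from the averages with one form -/
theorem mean (P : Set ℕ) (g : ℕ → ℝ) (hg : ∀ n, g n = 0 ∨ g n = 1 ∨ g n = -1)
    (h : ∀ (k : ℕ) (g : Fin k → ℕ → ℂ), (∀ i n, ‖g i n‖ ≤ 1) → ∀ᵐ ω ∂cm,
      ∀ (S : Finset (Fin k)) (a b : Fin k → ℕ), S.Nonempty → (∀ i, 1 ≤ a i) →
      (∀ i j, i ≠ j → a i * b j ≠ a j * b i) →
      Tendsto (fun N : ℕ => (∑ n ∈ Icc 1 N, (∏ i, g i (a i * n + b i)) *
        ∏ i ∈ S, ((rand P ω (a i * n + b i) : ℝ) : ℂ)) / N) atTop (𝓝 0)) :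
    ∀ᵐ ω ∂cm,
      Tendsto (fun N : ℕ => (∑ n ∈ Finset.Icc 1 N, g n * rand P ω n) / N) atTop (𝓝 0) := by
  have h0 := h 1 (fun _ n => (g n : ℂ)) fun _ n => by
    rw [Complex.norm_real, Real.norm_eq_abs]
    rcases hg n with h2 | h2 | h2 <;> rw [h2] <;> simp
  filter_upwards [h0] with ω hω
  have h1 := hω Finset.univ (fun _ => 1) (fun _ => 0) Finset.univ_nonempty (fun _ => le_rfl)
    (fun i j hij => absurd (Subsingleton.elim i j) hij)
  simp only [Finset.univ_unique, Finset.prod_singleton, one_mul, add_zero] at h1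
  have h2 := (Complex.continuous_re.tendsto 0).comp h1
  rw [Complex.zero_re] at h2
  refine h2.congr fun N => ?_
  simp only [Function.comp]
  have h3 : (∑ n ∈ Finset.Icc 1 N, (g n : ℂ) * ((rand P ω n : ℝ) : ℂ)) / (N : ℂ) =
      (((∑ n ∈ Finset.Icc 1 N, g n * rand P ω n) / (N : ℝ) : ℝ) : ℂ) := by
    push_cast
    rfl
  rw [h3, Complex.ofReal_re]

/-- functions which correlate with the signs have no mean value zero -/
theorem not_mean (P : Set ℕ) (g : ℕ → ℝ) (c : ℝ) (hc : 0 < c) (ω : ℕ → Bool)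
    (h : ∃ᶠ N : ℕ in atTop, c * N ≤ |∑ n ∈ Finset.Icc 1 N, g n * rand P ω n|) :
    ¬ Tendsto (fun N : ℕ => (∑ n ∈ Finset.Icc 1 N, g n * rand P ω n) / N) atTop (𝓝 0) := by
  intro ht
  rw [Metric.tendsto_atTop'] at ht
  obtain ⟨N0, hN0⟩ := ht c hc
  obtain ⟨N, hN, h1⟩ := (frequently_atTop.1 h) (N0 + 1)
  have h2 := hN0 N (by omega)
  have hNr : (0 : ℝ) < N := by exact_mod_cast (by omega : 0 < N)
  rw [Real.dist_eq, sub_zero, abs_div, Nat.abs_cast, div_lt_iff₀ hNr] at h2
  linarith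

/-- **Elliott's conjecture with a random factor: the exact condition on the set of primes.** -/
theorem result (P : Set ℕ) :
    -- (1) arbitrary bounded functions `g_i`, random factor at the positions `i ∈ S`, all forms
    (Tendsto (Pool.Agent.Q163.RX.mass P ll) atTop atTop ↔
      ∀ (k : ℕ) (g : Fin k → ℕ → ℂ), (∀ i n, ‖g i n‖ ≤ 1) → ∀ᵐ ω ∂cm,
        ∀ (S : Finset (Fin k)) (a b : Fin k → ℕ), S.Nonempty → (∀ i, 1 ≤ a i) →
          (∀ i j, i ≠ j → a i * b j ≠ a j * b i) →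
          Tendsto (fun N : ℕ => (∑ n ∈ Icc 1 N, (∏ i, g i (a i * n + b i)) *
            ∏ i ∈ S, ((rand P ω (a i * n + b i) : ℝ) : ℂ)) / N) atTop (𝓝 0)) ∧
    -- (2) one function with values `-1, 0, 1`, mean values
    (Tendsto (Pool.Agent.Q163.RX.mass P ll) atTop atTop ↔
      ∀ g : ℕ → ℝ, (∀ n, g n = 0 ∨ g n = 1 ∨ g n = -1) → ∀ᵐ ω ∂cm,
        Tendsto (fun N : ℕ => (∑ n ∈ Icc 1 N, g n * rand P ω n) / N) atTop (𝓝 0)) ∧
    -- (3) otherwise one function correlates with every choice of the signs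
    (¬ Tendsto (Pool.Agent.Q163.RX.mass P ll) atTop atTop →
      ∃ g : ℕ → ℝ, (∀ n, g n = 0 ∨ g n = 1 ∨ g n = -1) ∧ ∃ c : ℝ, 0 < c ∧ ∀ ω : ℕ → Bool,
        ∃ᶠ N : ℕ in atTop, c * N ≤ |∑ n ∈ Icc 1 N, g n * rand P ω n|) := by
  have key : ¬ Tendsto (Pool.Agent.Q163.RX.mass P ll) atTop atTop →
      ∃ g : ℕ → ℝ, (∀ n, g n = 0 ∨ g n = 1 ∨ g n = -1) ∧ ∃ c : ℝ, 0 < c ∧ ∀ ω : ℕ → Bool,
        ∃ᶠ N : ℕ in atTop, c * N ≤ |∑ n ∈ Icc 1 N, g n * rand P ω n| := fun h => nec P h
  have hne : ∀ p : (ℕ → Bool) → Prop, (∀ᵐ ω ∂cm, p ω) → ∃ ω, p ω := fun p h => h.exists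
  have back : (∀ g : ℕ → ℝ, (∀ n, g n = 0 ∨ g n = 1 ∨ g n = -1) → ∀ᵐ ω ∂cm,
      Tendsto (fun N : ℕ => (∑ n ∈ Icc 1 N, g n * rand P ω n) / N) atTop (𝓝 0)) →
      Tendsto (Pool.Agent.Q163.RX.mass P ll) atTop atTop := by
    intro h
    by_contra hP
    obtain ⟨g, hg, c, hc, h1⟩ := key hP
    obtain ⟨ω, hω⟩ := hne _ (h g hg)
    exact not_mean P g c hc ω (h1 ω) hω
  exact ⟨⟨fun hP k g hg => general P hP k g hg, fun h => back fun g hg => mean P g hg h⟩,
    ⟨fun hP g hg => mean P g hg fun k g hg => general P hP k g hg, back⟩, key⟩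

end Pool.Agent.Results.MP_0c9a68_nt.ExactRandomFactor
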