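import Pool.Agent.Q270.EB.FurF

/-!
# Elliott's conjecture for one tame function and any number of arbitrary companions

`TameAp f`: `f(n) = χ(n) n^{it} u(n)` for `n ≥ 1` with a Dirichlet character `χ`, a real number `t` and a
multiplicative function `u` with values in the unit disc, such that for every fixed `K` the sum of
`(1 - Re u(p)) / p` over the primes `X^{1/K} < p ≤ X` tends to `0`, while the sum over all primes diverges.
(For instance `u(p) = -1` on a set of primes of relative density zero with divergent sum of reciprocals.)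

`AS X F` is the mean over the scales `N ≤ X`, with the weights `1/N`, of `|(1/N) ∑_{n ≤ N} F(n)|`.

The theorem: let `f` be such a function, `k ≥ 1`, `h_0, ..., h_k` distinct integers, `ε > 0`. There are `w` and `X₀`
such that for all `X ≥ X₀` and ALL companions `g_1 G_1, ..., g_k G_k`, where the `g_j` are arbitrary multiplicative
functions with values in the unit disc (they may depend on `X`) and the `G_j` are arbitrary functions bounded
by one of `Ω(n)`, or of the part of `n` composed of the primes larger than `w`, or products of such functions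
(`QM w G_j`, a more general condition),

* the mean over the scales `N ≤ X` of `|(1/N) ∑_{n ≤ N} f(n + h_0) ∏_j (g_j G_j)(n + h_j)|` is at most `ε`,
* the logarithmic average `(1/log X) |∑_{n ≤ X} f(n + h_0) ∏_j (g_j G_j)(n + h_j) / n|` is at most `ε`.

So for these functions the conclusion of the conjecture holds at almost all scales, and for logarithmic
averages, for all `k`, without any hypothesis on the other functions, and uniformly in them.
-/

set_option autoImplicit false

namespace Pool.Agent.Results.MP_0c9a68_nt.OneTameFunction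

open Finset Filter Pool.Agent.Q270.EA Pool.Agent.Q270.EB

theorem result (f : ℕ → ℂ) (hf : TameAp f) (hf0 : ‖f 0‖ ≤ 1) (k : ℕ) (hk : 1 ≤ k)
    (h : Fin (k + 1) → ℤ) (hh : Function.Injective h) (ε : ℝ) (hε : 0 < ε) :
    ∃ w X₀ : ℕ, ∀ X : ℕ, X₀ ≤ X → ∀ g G : Fin k → ℕ → ℂ, (∀ j, BM (g j)) → (∀ j, QM w (G j)) →
      AS X (cor h f (fun j n => g j n * G j n)) ≤ ε ∧
      ‖∑ n ∈ Icc 1 X, (1 / (n : ℂ)) * cor h f (fun j n => g j n * G j n) n‖ ≤ ε * Real.log X := by
  obtain ⟨w, X₀, hX⟩ := t_TT f (hf.tw hf0) k hk h hh (ε / 4) (by positivity)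
  obtain ⟨X₁, hX₁⟩ := (eventually_atTop.1 ((tendsto_atTop.1
    (Real.tendsto_log_atTop.comp tendsto_natCast_atTop_atTop)) (1 + 2 / ε)))
  refine ⟨w, X₀ + X₁ + 1, fun X hXX g G hg hG => ?_⟩
  have h1 := hX X (by omega) g G hg hG
  refine ⟨h1.trans (by linarith), ?_⟩
  have hlog : 1 + 2 / ε ≤ Real.log X := hX₁ X (by omega)
  have h2ε : 0 < 2 / ε := by positivity
  have hb : ∀ n, ‖cor h f (fun j n => g j n * G j n) n‖ ≤ 1 := by
    intro n
    refine norm_cor_le h f _ (hf.bm hf0).1 (fun j n => ?_) n
    rw [norm_mul]
    exact mul_le_one₀ ((hg j).1 n) (norm_nonneg _) ((hG j).1 n)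
  refine (Pool.Agent.Q239.EB.log_le_AS _ hb X (by omega)).trans ?_
  have h3 : (1 + Real.log X) * AS X (cor h f (fun j n => g j n * G j n)) ≤ (1 + Real.log X) * (ε / 4) :=
    mul_le_mul_of_nonneg_left h1 (by linarith)
  have h4 : 2 ≤ ε * Real.log X := by
    have : ε * (2 / ε) ≤ ε * Real.log X := mul_le_mul_of_nonneg_left (by linarith) hε.le
    rwa [mul_div_cancel₀ _ hε.ne'] at this
  have h5 : (1 + Real.log X) * (ε / 4) ≤ (2 * Real.log X) * (ε / 4) :=
    mul_le_mul_of_nonneg_right (by linarith) (by positivity)
  nlinarith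

end Pool.Agent.Results.MP_0c9a68_nt.OneTameFunction
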