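import Pool.Agent.Q270.EA.Rnd
import Pool.Agent.Q285.EA.Unif

/-!
# Elliott's conjecture at almost all scales: the correlations of one function with itself suffice

`scaleMean X φ` is the mean over the scales `N ≤ X`, with the weights `1 / N`, of the absolute value
of `(1 / N) ∑_{n ≤ N} φ n`; `Vanishes φ` says that it tends to `0`, that is, for every `ε > 0` the
average over `n ≤ N` is smaller than `ε` for all scales `N` outside a set of logarithmic density `0`.

(1) Let `f` be ANY 1-bounded multiplicative function and `k ≥ 1`. If the correlations of `f` with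
itself along the nondegenerate `k`-dimensional cubes (`2 ^ k` factors, half `f` and half the complex
conjugate of `f`) vanish, then the correlation `f (n + h_0) g_1 (n + h_1) ⋯ g_k (n + h_k)`
vanishes for all distinct shifts and ALL 1-bounded multiplicative functions `g_j`, uniformly in the
`g_j`: the scale mean is at most `ε` for `X ≥ X₀ (f, h, ε)`.

(2) Hence for every `f` Elliott's conjecture at almost all scales for products of arbitrary
multiplicative functions one of which is `f` is equivalent to its special case where all the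
functions are `f` and its complex conjugate.

(3) Unconditionally: there is a set `Q` of primes, so sparse that the sum of the reciprocals of its
members up to the `n`-th iterated power of two is `O(n ^ 2)`, such that for every completely
multiplicative `g₀` with values `1` and `-1`, for instance the Liouville function, and almost every
choice of signs at the primes of `Q`, the function `f` which agrees with `g₀` outside `Q` and has
these changes of sign at `Q` satisfies Elliott's conjecture at almost all scales with ALL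
1-bounded multiplicative companions (an uncountable family, chosen after `f`), for every `k`,
uniformly in the companions.

Method: dilation invariance of the logarithmic mean over the scales, an entropy decrement argument
for finitely additive invariant means, where the phases of the averages and the values of the
companions at the primes enter as an invariant finite random variable, and Cauchy-Schwarz
(generalised von Neumann), which eliminates the companions one by one.
-/

set_option autoImplicit false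

namespace Pool.Agent.Results.MP_0c9a68_nt.SelfCorrelationsSuffice

open Finset Filter MeasureTheory Pool.Agent.H220M Pool.Agent.Q270.EA
open Pool.Agent.TH573.SM (tower)

/-- the mean over the scales `N ≤ X`, with the weights `1 / N`, of `|(1 / N) ∑_{n ≤ N} φ n|` -/
noncomputable def scaleMean (X : ℕ) (φ : ℕ → ℂ) : ℝ :=
  (∑ N ∈ Icc 1 X, (1 / (N : ℝ)) * ‖(1 / (N : ℂ)) * ∑ n ∈ Icc 1 N, φ n‖) /
    ∑ N ∈ Icc 1 X, 1 / (N : ℝ)

/-- the averages of `φ` vanish at almost all scales -/
def Vanishes (φ : ℕ → ℂ) : Prop := Tendsto (fun X : ℕ => scaleMean X φ) atTop (nhds 0)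

/-- 1-bounded multiplicative functions -/
def Mul1 (f : ArithmeticFunction ℂ) : Prop := f.IsMultiplicative ∧ ∀ n, ‖f n‖ ≤ 1

/-- all correlations of `f` and its complex conjugate at distinct shifts vanish at almost all
scales -/
def Self (f : ArithmeticFunction ℂ) : Prop :=
  ∀ (m : ℕ) (c : Fin m → Bool) (h : Fin m → ℤ), 1 ≤ m → Function.Injective h →
    Vanishes (fun n => ∏ i, if c i = true then starRingEnd ℂ (f ((n : ℤ) + h i).toNat)
      else f ((n : ℤ) + h i).toNat)

/-- Elliott's conjecture at almost all scales for products containing `f` -/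
def Elliott (f : ArithmeticFunction ℂ) : Prop :=
  ∀ (k : ℕ) (g : Fin k → ArithmeticFunction ℂ) (h : Fin k → ℤ), (∀ j, Mul1 (g j)) →
    (∃ j, g j = f) → Function.Injective h → Vanishes (fun n => ∏ j, g j ((n : ℤ) + h j).toNat)

lemma bm {f : ArithmeticFunction ℂ} (hf : Mul1 f) : BM f :=
  ⟨hf.2, hf.1.map_one, fun _ _ h => hf.1.map_mul_of_coprime h⟩

/-- (1) -/
theorem one (f : ArithmeticFunction ℂ) (hf : Mul1 f) (k : ℕ) (hk : 1 ≤ k)
    (hc : ∀ t : Fin k → ℤ, Function.Injective (fun s : Finset (Fin k) => ∑ i ∈ s, t i) →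
      Vanishes (fun n => ∏ s : Finset (Fin k), if s.card % 2 = 0 then
        f ((n : ℤ) + ∑ i ∈ s, t i).toNat else
        starRingEnd ℂ (f ((n : ℤ) + ∑ i ∈ s, t i).toNat)))
    (h : Fin (k + 1) → ℤ) (hh : Function.Injective h) (ε : ℝ) (hε : 0 < ε) :
    ∃ X₀ : ℕ, ∀ X : ℕ, X₀ ≤ X → ∀ g : Fin k → ArithmeticFunction ℂ, (∀ j, Mul1 (g j)) →
      scaleMean X (fun n => f ((n : ℤ) + h 0).toNat * ∏ j, g j ((n : ℤ) + h j.succ).toNat) ≤ ε := by
  obtain ⟨X₀, hX₀⟩ := aal_of Pool.Agent.Q285.EA.t_UNIF k hk f (bm hf) (fun t ht => hc t ht) h hh ε hε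
  exact ⟨X₀, fun X hX g hg => hX₀ X hX (fun j => g j) (fun j => bm (hg j))⟩

lemma nonneg (X : ℕ) (φ : ℕ → ℂ) : 0 ≤ scaleMean X φ := AS_nonneg X φ

lemma vanishes_of_le {φ : ℕ → ℂ} (h : ∀ ε : ℝ, 0 < ε → ∃ X₀ : ℕ, ∀ X : ℕ, X₀ ≤ X →
    scaleMean X φ ≤ ε) : Vanishes φ := by
  unfold Vanishes
  rw [Metric.tendsto_atTop]
  intro ε hε
  obtain ⟨X₀, hX₀⟩ := h (ε / 2) (by positivity)
  refine ⟨X₀, fun X hX => ?_⟩
  rw [Real.dist_eq, sub_zero, abs_of_nonneg (nonneg _ _)]
  linarith [hX₀ X hX]

/-- the complex conjugate -/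
noncomputable def conjA (f : ArithmeticFunction ℂ) : ArithmeticFunction ℂ :=
  ⟨fun n => starRingEnd ℂ (f n), by simp⟩

lemma conjA_apply (f : ArithmeticFunction ℂ) (n : ℕ) : conjA f n = starRingEnd ℂ (f n) := rfl

lemma mul1_conj {f : ArithmeticFunction ℂ} (hf : Mul1 f) : Mul1 (conjA f) := by
  refine ⟨⟨?_, fun {m n} h => ?_⟩, fun n => ?_⟩
  · rw [conjA_apply, hf.1.map_one, map_one]
  · rw [conjA_apply, conjA_apply, conjA_apply, hf.1.map_mul_of_coprime h, map_mul]
  · rw [conjA_apply, RCLike.norm_conj]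
    exact hf.2 n

/-- (2) -/
theorem two (f : ArithmeticFunction ℂ) (hf : Mul1 f) : Self f ↔ Elliott f := by
  classical
  constructor
  · intro hs k g h hg hj hh
    obtain ⟨j₀, hj₀⟩ := hj
    obtain ⟨k, rfl⟩ : ∃ k', k = k' + 1 := ⟨k - 1, by have := j₀.2; omega⟩
    obtain ⟨σ, hσ⟩ : ∃ σ : Equiv.Perm (Fin (k + 1)), σ = Equiv.swap 0 j₀ := ⟨_, rfl⟩
    have hσ0 : σ 0 = j₀ := by rw [hσ]; exact Equiv.swap_apply_left _ _
    have hprod : ∀ n : ℕ, ∏ j, g j ((n : ℤ) + h j).toNat = f ((n : ℤ) + h (σ 0)).toNat *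
        ∏ j : Fin k, g (σ j.succ) ((n : ℤ) + h (σ j.succ)).toNat := by
      intro n
      rw [← Equiv.prod_comp σ, Fin.prod_univ_succ, hσ0, hj₀]
    simp only [hprod]
    rcases Nat.eq_zero_or_pos k with hk | hk
    · subst hk
      have h1 := hs 1 (fun _ => false) (fun _ => h (σ 0)) le_rfl
        (fun a b _ => Subsingleton.elim a b)
      simpa using h1
    · refine vanishes_of_le fun ε hε => ?_
      have hcube : ∀ t : Fin k → ℤ, Function.Injective (fun s : Finset (Fin k) => ∑ i ∈ s, t i) →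
          Vanishes (fun n => ∏ s : Finset (Fin k), if s.card % 2 = 0 then
            f ((n : ℤ) + ∑ i ∈ s, t i).toNat else
            starRingEnd ℂ (f ((n : ℤ) + ∑ i ∈ s, t i).toNat)) := by
        intro t ht
        obtain ⟨e⟩ : Nonempty (Finset (Fin k) ≃ Fin (Fintype.card (Finset (Fin k)))) :=
          ⟨Fintype.equivFin _⟩
        have h1 := hs (Fintype.card (Finset (Fin k))) (fun i => decide (¬ (e.symm i).card % 2 = 0))
          (fun i => ∑ l ∈ e.symm i, t l) Fintype.card_pos (ht.comp e.symm.injective)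
        refine Tendsto.congr (fun X => ?_) h1
        congr 1
        funext n
        rw [← Equiv.prod_comp e]
        refine prod_congr rfl fun s _ => ?_
        rw [Equiv.symm_apply_apply]
        by_cases hs : s.card % 2 = 0
        · simp [hs]
        · simp [hs]
      obtain ⟨X₀, hX₀⟩ := one f hf k hk hcube (fun j => h (σ j)) (hh.comp σ.injective) ε hε
      exact ⟨X₀, fun X hX => hX₀ X hX (fun j => g (σ j.succ)) fun j => hg _⟩
  · intro hE m c h hm hh
    by_cases hc : ∃ i, c i = false
    · obtain ⟨i₀, hi₀⟩ := hc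
      have h1 := hE m (fun i => if c i = true then conjA f else f) h
        (fun i => by
          beta_reduce
          split_ifs
          · exact mul1_conj hf
          · exact hf) ⟨i₀, by simp [hi₀]⟩ hh
      refine Tendsto.congr (fun X => ?_) h1
      congr 1
      funext n
      refine prod_congr rfl fun i _ => ?_
      split_ifs <;> rfl
    · push Not at hc
      have hc' : ∀ i, c i = true := fun i => by simpa using hc i
      have h1 := hE m (fun _ => f) h (fun _ => hf) ⟨⟨0, hm⟩, rfl⟩ hh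
      refine Tendsto.congr (fun X => ?_) h1
      rw [show scaleMean X (fun n => ∏ i, f ((n : ℤ) + h i).toNat) =
        scaleMean X (fun n => starRingEnd ℂ (∏ i, f ((n : ℤ) + h i).toNat)) from
        (AS_conj X _).symm]
      congr 1
      funext n
      rw [map_prod]
      refine prod_congr rfl fun i _ => ?_
      rw [if_pos (hc' i)]

/-- (1), (2) and (3) -/
theorem result :
    (∀ f : ArithmeticFunction ℂ, Mul1 f → ∀ k : ℕ, 1 ≤ k →
      (∀ t : Fin k → ℤ, Function.Injective (fun s : Finset (Fin k) => ∑ i ∈ s, t i) →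
        Vanishes (fun n => ∏ s : Finset (Fin k), if s.card % 2 = 0 then
          f ((n : ℤ) + ∑ i ∈ s, t i).toNat else
          starRingEnd ℂ (f ((n : ℤ) + ∑ i ∈ s, t i).toNat))) →
      ∀ h : Fin (k + 1) → ℤ, Function.Injective h → ∀ ε : ℝ, 0 < ε → ∃ X₀ : ℕ, ∀ X : ℕ, X₀ ≤ X →
        ∀ g : Fin k → ArithmeticFunction ℂ, (∀ j, Mul1 (g j)) → scaleMean X (fun n =>
          f ((n : ℤ) + h 0).toNat * ∏ j, g j ((n : ℤ) + h j.succ).toNat) ≤ ε) ∧
    (∀ f : ArithmeticFunction ℂ, Mul1 f → (Self f ↔ Elliott f)) ∧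
    ∃ Q : Set ℕ, (∀ q ∈ Q, q.Prime) ∧
      (∃ K : ℝ, ∀ n : ℕ, (open Classical in
        ∑ q ∈ (Icc 1 (tower n)).filter (fun q => q ∈ Q), (1 : ℝ) / q) ≤ K * n ^ 2) ∧
      ∀ g₀ : ℕ →*₀ ℤ, (∀ p : ℕ, p.Prime → g₀ p = 1 ∨ g₀ p = -1) →
      ∀ᵐ ω ∂coins, ∃! f : ℕ →*₀ ℤ, IsModif g₀ Q ω f ∧
        ∀ (k : ℕ) (h : Fin (k + 2) → ℤ), Function.Injective h → ∀ ε : ℝ, 0 < ε →
          ∃ X₀ : ℕ, ∀ X : ℕ, X₀ ≤ X → ∀ g : Fin (k + 1) → ArithmeticFunction ℂ,
            (∀ j, Mul1 (g j)) → scaleMean X (fun n =>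
              ((f ((n : ℤ) + h 0).toNat : ℤ) : ℂ) *
                ∏ j, g j ((n : ℤ) + h j.succ).toNat) ≤ ε := by
  classical
  refine ⟨fun f hf k hk hc h hh ε hε => one f hf k hk hc h hh ε hε, two,
    Pool.Agent.TH573.SM.sparse, fun q hq => hq.1, ?_, fun g₀ hg₀ => ?_⟩
  · obtain ⟨K, hK⟩ := Pool.Agent.TH573.SM.sparse_sum
    refine ⟨K, fun n => ?_⟩
    refine le_trans (Finset.sum_le_sum_of_subset_of_nonneg ?_ fun q _ _ => by positivity) (hK n)
    intro q hq
    rw [mem_filter, mem_Icc] at hq ⊢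
    obtain ⟨h1, hp, i, h2, h3⟩ := hq
    refine ⟨h1, i, ?_, hp, h2, h3⟩
    by_contra h
    have := Pool.Agent.TH573.SM.tower_strictMono.monotone (not_lt.1 h)
    omega
  · obtain ⟨g', hg'⟩ := exists_unit g₀ hg₀
    filter_upwards [Pool.Agent.TH573.SM.main g₀ hg₀ (fun _ _ => 1) (fun _ _ => by simp)]
      with ω hω
    obtain ⟨f, ⟨hf, h1⟩, hu⟩ := hω
    obtain ⟨f', hf', hfm⟩ := isModif_exists g₀ g' hg' Pool.Agent.TH573.SM.sparse ω
    obtain rfl : f = f' := isModif_unique g₀ _ ω f f' hf hf'
    refine ⟨f, ⟨hf, ?_⟩, fun f' hf' => isModif_unique g₀ _ ω f' f hf'.1 hf⟩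
    intro k h hh ε hε
    have hbm : BM (fun n => ((f n : ℤ) : ℂ)) := by
      refine ⟨fun n => ?_, by simp, fun m n _ => by simp⟩
      dsimp only
      by_cases hn : n = 0
      · simp [hn]
      · rw [hfm n hn]
        rcases Int.units_eq_one_or (modif g' Pool.Agent.TH573.SM.sparse ω n) with h2 | h2 <;>
          rw [h2] <;> simp
    obtain ⟨X₀, hX₀⟩ := aal_of Pool.Agent.Q285.EA.t_UNIF (k + 1) (by omega)
      (fun n => ((f n : ℤ) : ℂ)) hbm (fun t ht => self_of f (fun F hF => by
        refine (h1 F hF 0 0 1).congr fun x => ?_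
        congr 1
        rw [filter_true_of_mem fun n _ => Nat.modEq_one]
        refine sum_congr rfl fun n _ => ?_
        rw [one_mul]) (k + 1) t ht) h hh ε hε
    exact ⟨X₀, fun X hX g hg => hX₀ X hX (fun j => g j) (fun j => bm (hg j))⟩

end Pool.Agent.Results.MP_0c9a68_nt.SelfCorrelationsSuffice
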