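import Pool.Agent.Q132.CS.K
import Pool.Agent.Q132.CS.E

set_option autoImplicit false

/-!
# Elliott's conjecture follows from its case of widely separated shifts

Let `g_1, …, g_k` be multiplicative functions with values in the unit disc. If the correlations of
`g_1, …, g_k, conj g_1, …, conj g_k` with shifts in a set `S` at mutual distance at least `D` vanish along
a sequence of scales with bounded ratios, then the correlations of `g_1, …, g_k` vanish for all distinct
shifts, provided that for all large primes `p` the set `S` contains progressions of difference `p` and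
length `K p` (any `K`). Hence Elliott's conjecture is equivalent to its case of shifts in `S` at mutual
distance at least `D`; there are arbitrarily sparse sets `S` of this kind whose gaps tend to infinity.
-/

open Filter Topology Finset

namespace Pool.Agent.Results.MP_0c9a68_nt.WidelySeparatedShifts

/-- Condition (N), as in the frozen statement. -/
def CondN (g : ArithmeticFunction ℂ) : Prop :=
  ∀ (q : ℕ) (χ : DirichletCharacter ℂ q), 0 < q →
    ∀ M : ℝ, ∃ X₀ : ℝ, ∀ X : ℝ, X₀ ≤ X → ∀ t : ℝ, |t| ≤ X →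
      M ≤ ∑ p ∈ Finset.filter Nat.Prime (Finset.Iic ⌊X⌋₊),
        (1 - (g p * starRingEnd ℂ (χ (p : ZMod q) * (p : ℂ) ^ (Complex.I * (t : ℂ)))).re) / (p : ℝ)

/-- The averages of `∏ g_i(n + h_i)`. -/
noncomputable def avg {k : ℕ} (g : Fin k → ArithmeticFunction ℂ) (h : Fin k → ℤ) (N : ℕ) : ℂ :=
  (1 / (N : ℂ)) * ∑ n ∈ Finset.Icc 1 N, ∏ i, g i ((n : ℤ) + h i).toNat

/-- Distinct shifts in `S` at mutual distance at least `D`. -/
def Apart {m : ℕ} (S : Set ℤ) (D : ℤ) (h : Fin m → ℤ) : Prop :=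
  Function.Injective h ∧ (∀ i, h i ∈ S) ∧ ∀ i j, i ≠ j → D ≤ |h i - h j|

/-- The assertion of Elliott's conjecture for `k` factors, for distinct shifts in `S` at mutual distance
at least `D`, along the scales in `𝒩`. -/
def Elliott (k : ℕ) (S : Set ℤ) (D : ℤ) (𝒩 : Set ℕ) : Prop :=
  ∀ g : Fin k → ArithmeticFunction ℂ, (∀ i, (g i).IsMultiplicative) → (∀ i n, ‖g i n‖ ≤ 1) →
    (∃ j, CondN (g j)) → ∀ h : Fin k → ℤ, Apart S D h → Tendsto (avg g h) (atTop ⊓ 𝓟 𝒩) (𝓝 0)

/-- The scales in `𝒩` have bounded ratios. -/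
def Scales (𝒩 : Set ℕ) : Prop :=
  ∃ C : ℝ, ∀ x : ℕ, 1 ≤ x → ∃ N ∈ 𝒩, x ≤ N ∧ (N : ℝ) ≤ C * x

/-- For every `K` and every large prime `p` the set `S` contains a progression of difference `p` and
length `K p`. -/
def Rich (S : Set ℤ) : Prop :=
  ∀ K : ℕ, ∃ P : ℕ, ∀ p ≥ P, p.Prime → ∃ t : ℤ, ∀ i : ℕ, i < K * p → t + p * i ∈ S

/-- The complex conjugate of an arithmetic function. -/
noncomputable def conjA (g : ArithmeticFunction ℂ) : ArithmeticFunction ℂ :=
  ⟨fun n => starRingEnd ℂ (g n), by simp⟩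

/-- `g_1, …, g_k, conj g_1, …, conj g_k` -/
noncomputable def double {k : ℕ} (g : Fin k → ArithmeticFunction ℂ) : Fin (k + k) → ArithmeticFunction ℂ :=
  Fin.addCases g (fun i => conjA (g i))

lemma double_mult {k : ℕ} {g : Fin k → ArithmeticFunction ℂ} (hg : ∀ i, (g i).IsMultiplicative)
    (u : Fin (k + k)) : (double g u).IsMultiplicative := by
  unfold double
  induction u using Fin.addCases with
  | left i => simp only [Fin.addCases_left]; exact hg i
  | right i =>
    simp only [Fin.addCases_right]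
    refine ⟨?_, fun {m n} hmn => ?_⟩
    · change starRingEnd ℂ (g i 1) = 1
      rw [(hg i).map_one, map_one]
    · change starRingEnd ℂ (g i (m * n)) = starRingEnd ℂ (g i m) * starRingEnd ℂ (g i n)
      rw [(hg i).map_mul_of_coprime hmn, map_mul]

lemma double_bound {k : ℕ} {g : Fin k → ArithmeticFunction ℂ} (hg : ∀ i n, ‖g i n‖ ≤ 1)
    (u : Fin (k + k)) (n : ℕ) : ‖double g u n‖ ≤ 1 := by
  unfold double
  induction u using Fin.addCases with
  | left i => simp only [Fin.addCases_left]; exact hg i n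
  | right i =>
    simp only [Fin.addCases_right]
    change ‖starRingEnd ℂ (g i n)‖ ≤ 1
    rw [RCLike.norm_conj]
    exact hg i n

lemma double_condN {k : ℕ} {g : Fin k → ArithmeticFunction ℂ} {j : Fin k} (hj : CondN (g j)) :
    CondN (double g (Fin.castAdd k j)) := by
  unfold double
  rw [Fin.addCases_left]
  exact hj

lemma avg_double {k : ℕ} (g : Fin k → ArithmeticFunction ℂ) (h : Fin (k + k) → ℤ) :
    Q132.CS.av (Q132.CS.dbl fun i => Q132.CS.exz (g i)) h = avg (double g) h := by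
  funext N
  unfold Q132.CS.av avg
  congr 1
  refine Finset.sum_congr rfl fun n _ => Finset.prod_congr rfl fun u _ => ?_
  unfold Q132.CS.dbl double
  induction u using Fin.addCases with
  | left i => simp only [Fin.addCases_left]; rfl
  | right i => simp only [Fin.addCases_right]; rfl

/-- the transfer for given functions -/
lemma transfer {k : ℕ} (g : Fin k → ArithmeticFunction ℂ) (hg : ∀ i, (g i).IsMultiplicative)
    (hb : ∀ i n, ‖g i n‖ ≤ 1) {S : Set ℤ} (hS : Rich S) (D : ℤ) {𝒩 : Set ℕ} (h𝒩 : Scales 𝒩)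
    (hyp : ∀ h : Fin (k + k) → ℤ, Apart S D h → Tendsto (avg (double g) h) (atTop ⊓ 𝓟 𝒩) (𝓝 0))
    (h : Fin k → ℤ) (hinj : Function.Injective h) : Tendsto (avg g h) atTop (𝓝 0) := by
  have := Q132.CS.transfer (fun i n => g i n) (fun i m n hmn => (hg i).map_mul_of_coprime hmn) hb
    (fun i => (hg i).map_one) (fun i => (g i).map_zero) hS (D := D) h𝒩
    (fun h' h1 h2 h3 => by rw [avg_double]; exact hyp h' ⟨h1, h2, h3⟩) h hinj
  exact this

/-- **Elliott's conjecture follows from its case of widely separated shifts.** -/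
theorem result :
    -- the transfer for given functions
    (∀ S : Set ℤ, Rich S → ∀ (D : ℤ) (𝒩 : Set ℕ), Scales 𝒩 → ∀ (k : ℕ) (g : Fin k → ArithmeticFunction ℂ),
      (∀ i, (g i).IsMultiplicative) → (∀ i n, ‖g i n‖ ≤ 1) →
      (∀ h : Fin (k + k) → ℤ, Apart S D h → Tendsto (avg (double g) h) (atTop ⊓ 𝓟 𝒩) (𝓝 0)) →
      ∀ h : Fin k → ℤ, Function.Injective h → Tendsto (avg g h) atTop (𝓝 0)) ∧
    -- the conjecture for `2 k` factors and separated shifts implies the conjecture for `k` factors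
    (∀ S : Set ℤ, Rich S → ∀ (D : ℤ) (𝒩 : Set ℕ), Scales 𝒩 → ∀ k : ℕ,
      Elliott (k + k) S D 𝒩 → Elliott k Set.univ 0 Set.univ) ∧
    -- the conjecture is equivalent to its case of separated shifts
    (∀ S : Set ℤ, Rich S → ∀ (D : ℤ) (𝒩 : Set ℕ), Scales 𝒩 →
      ((∀ (k : ℕ), 1 ≤ k → ∀ (g : Fin k → ArithmeticFunction ℂ),
        (∀ i, (g i).IsMultiplicative) → (∀ i n, ‖g i n‖ ≤ 1) →
        (∃ j : Fin k, ∀ (q : ℕ) (χ : DirichletCharacter ℂ q), 0 < q →
          ∀ M : ℝ, ∃ X₀ : ℝ, ∀ X : ℝ, X₀ ≤ X → ∀ t : ℝ, |t| ≤ X →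
            M ≤ ∑ p ∈ Finset.filter Nat.Prime (Finset.Iic ⌊X⌋₊),
              (1 - (g j p * starRingEnd ℂ (χ (p : ZMod q) * (p : ℂ) ^ (Complex.I * (t : ℂ)))).re) / (p : ℝ)) →
        ∀ h : Fin k → ℤ, Function.Injective h →
          Filter.Tendsto
            (fun N : ℕ => (1 / (N : ℂ)) * ∑ n ∈ Finset.Icc 1 N, ∏ i, g i ((n : ℤ) + h i).toNat)
            Filter.atTop (nhds 0)) ↔ ∀ k : ℕ, 1 ≤ k → Elliott k S D 𝒩)) ∧
    -- arbitrarily sparse sets of shifts with gaps tending to infinity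
    (∀ φ : ℕ → ℕ, ∃ S : Set ℕ, Rich {z : ℤ | ∃ s ∈ S, z = (s : ℤ)} ∧
      (∀ j, {s | s ∈ S ∧ s < φ j}.Finite ∧ {s | s ∈ S ∧ s < φ j}.ncard ≤ j) ∧
      ∀ D : ℕ, {s | s ∈ S ∧ ∃ s' ∈ S, s < s' ∧ s' ≤ s + D}.Finite) := by
  have hA : ∀ S : Set ℤ, Rich S → ∀ (D : ℤ) (𝒩 : Set ℕ), Scales 𝒩 → ∀ k : ℕ,
      Elliott (k + k) S D 𝒩 → Elliott k Set.univ 0 Set.univ := by
    intro S hS D 𝒩 h𝒩 k hE g hg hb hN h hh
    rw [Filter.principal_univ, inf_top_eq]
    obtain ⟨j, hj⟩ := hN
    exact transfer g hg hb hS D h𝒩 (fun h' hh' =>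
      hE (double g) (double_mult hg) (double_bound hb) ⟨Fin.castAdd k j, double_condN hj⟩ h' hh') h hh.1
  refine ⟨fun S hS D 𝒩 h𝒩 k g hg hb hyp h hinj => transfer g hg hb hS D h𝒩 hyp h hinj, hA, ?_, ?_⟩
  · intro S hS D 𝒩 h𝒩
    constructor
    · intro hE k hk g hg hb hN h hh
      exact (hE k hk g hg hb hN h hh.1).mono_left inf_le_left
    · intro hE k hk g hg hb hN h hh
      have := hA S hS D 𝒩 h𝒩 k (hE (k + k) (by omega)) g hg hb hN h
        ⟨hh, fun _ => Set.mem_univ _, fun _ _ _ => abs_nonneg _⟩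
      rwa [Filter.principal_univ, inf_top_eq] at this
  · intro φ
    set d : ℕ → ℕ := fun K => K + 1 with hd
    set L : ℕ → ℕ := fun K => (K + 1) * (K + 1) with hL
    refine ⟨Q132.CS.SS φ d L, ?_, Q132.CS.card_le φ d L, Q132.CS.gaps φ d L fun K => le_rfl⟩
    intro K
    refine ⟨max K 1, fun p hp hpp => ⟨Q132.CS.tt φ d L (p - 1), fun i hi => ?_⟩⟩
    have hp1 : 1 ≤ p := (le_max_right _ _).trans hp
    have hpK : K ≤ p := (le_max_left _ _).trans hp
    have h1 : p - 1 + 1 = p := by omega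
    refine ⟨Q132.CS.tt φ d L (p - 1) + d (p - 1) * i, ⟨p - 1, i, ?_, rfl⟩, ?_⟩
    · simp only [hL, h1]
      exact hi.trans_le (Nat.mul_le_mul_right _ hpK)
    · simp only [hd, h1]
      push_cast
      rfl

end Pool.Agent.Results.MP_0c9a68_nt.WidelySeparatedShifts
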